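import Pool.Agent.Q149.GK.Union

/-!
# Project GK, job GK-Close: every set is contained in a model of the same size
-/

set_option autoImplicit false
set_option linter.all false

open Set Topology Cardinal Pool.Agent.Helper535 Pool.Agent.H180.GK

namespace Pool.Agent.Q149.GK

universe u

theorem Xp_card {X V : Type u} (S : Set (X ⊕ V)) : #(Xp S) ≤ #S := by
  refine Cardinal.mk_le_of_injective (f := fun x : Xp S => (⟨Sum.inl x.1, x.2⟩ : S)) ?_
  intro x y h
  have := congrArg (fun z : S => z.1) h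
  exact Subtype.ext (Sum.inl_injective this)

theorem Vp_card {X V : Type u} (S : Set (X ⊕ V)) : #(Vp S) ≤ #S := by
  refine Cardinal.mk_le_of_injective (f := fun x : Vp S => (⟨Sum.inr x.1, x.2⟩ : S)) ?_
  intro x y h
  have := congrArg (fun z : S => z.1) h
  exact Subtype.ext (Sum.inr_injective this)

theorem sq_card {X : Type u} [TopologicalSpace X] {V : Type u} (g : V → C(X, ℝ)) (N : Set V)
    {κ : Cardinal.{u}} (hκ : ℵ₀ ≤ κ) (hN : #N ≤ κ) : #(sq g N) ≤ κ := by
  have h : sq g N ⊆ (fun v => (g v).comp (⟨Prod.fst, continuous_fst⟩ : C(X × X, X))) '' N ∪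
      (fun v => (g v).comp (⟨Prod.snd, continuous_snd⟩ : C(X × X, X))) '' N := by
    rintro f ⟨v, hv, hf | hf⟩
    · exact Or.inl ⟨v, hv, hf.symm⟩
    · exact Or.inr ⟨v, hv, hf.symm⟩
  refine (Cardinal.mk_le_mk_of_subset h).trans ((Cardinal.mk_union_le _ _).trans ?_)
  exact Cardinal.add_le_of_le hκ (Cardinal.mk_image_le.trans hN) (Cardinal.mk_image_le.trans hN)

theorem union_card {ι α : Type u} (f : ι → Set α) {κ : Cardinal.{u}} (hκ : ℵ₀ ≤ κ)
    (hι : #ι ≤ κ) (hf : ∀ i, #(f i) ≤ κ) : #(⋃ i, f i : Set α) ≤ κ := by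
  refine Cardinal.mk_iUnion_le_sum_mk.trans ((Cardinal.sum_le_sum _ (fun _ => κ) hf).trans ?_)
  rw [Cardinal.sum_const']
  calc #ι * κ ≤ κ * κ := mul_le_mul' hι le_rfl
    _ = κ := Cardinal.mul_eq_self hκ

theorem countable_O {X : Type u} [TopologicalSpace X] {V : Type u} [TopologicalSpace V]
    [SecondCountableTopology V] {O : V → Set (X × X)} {g : V → C(X, ℝ)} (h : Sys X V O g)
    (x y : X) : {v | (x, y) ∈ O v}.Countable := by
  by_cases hxy : x = y
  · have h1 : {v | (x, y) ∈ O v} = ∅ := by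
      refine eq_empty_iff_forall_notMem.2 fun v hv => ?_
      have h2 := h.zero v _ hv
      have h3 := h.one v _ hv
      simp only at h2 h3
      rw [← hxy, h2] at h3
      exact zero_ne_one h3
    rw [h1]
    exact countable_empty
  · choose U hU hfin using h.fin x y hxy
    obtain ⟨s, hs, hcov⟩ := TopologicalSpace.countable_cover_nhds hU
    have h1 : {v | (x, y) ∈ O v} ⊆ ⋃ v ∈ s, {w | w ∈ U v ∧ (x, y) ∈ O w} := by
      intro w hw
      have h2 : w ∈ ⋃ v ∈ s, U v := by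
        rw [hcov]
        trivial
      simp only [mem_iUnion] at h2 ⊢
      obtain ⟨v, hv, hwv⟩ := h2
      exact ⟨v, hv, hwv, hw⟩
    exact (hs.biUnion fun v _ => (hfin v).countable).mono h1

/-- **JOB GK-Close** -/
theorem close : S_Close.{u} := by
  classical
  intro X _ _ _ V _ _ O g h S
  set κ : Cardinal.{u} := max #S ℵ₀ with hκ
  have hκ0 : ℵ₀ ≤ κ := le_max_right _ _
  -- points for the functions
  have hC : ∀ S : Set (X ⊕ V), ∃ C : Set X, #C ≤ max #S ℵ₀ ∧ Dn Set.univ C (g '' Vp S) := by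
    intro S
    obtain ⟨C, -, hCc, hD⟩ := lemA (Set.univ : Set X) (g '' Vp S)
    rw [closure_univ] at hD
    exact ⟨C, hCc.trans (max_le ((Cardinal.mk_image_le.trans (Vp_card S)).trans
      (le_max_left _ _)) (le_max_right _ _)), hD⟩
  choose C hCc hCD using hC
  have hD : ∀ (v : V) (S : Set (X ⊕ V)), ∃ D : Set (X × X), D ⊆ (O v)ᶜ ∧ #D ≤ max #S ℵ₀ ∧
      Dn ((O v)ᶜ) D (sq g (Vp S)) := by
    intro v S
    obtain ⟨D, hDs, hDc, hDD⟩ := lemA ((O v)ᶜ) (sq g (Vp S))
    rw [(h.isOpen v).isClosed_compl.closure_eq] at hDD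
    exact ⟨D, hDs, hDc.trans (max_le (sq_card g _ (le_max_right _ _)
      ((Vp_card S).trans (le_max_left _ _))) (le_max_right _ _)), hDD⟩
  choose D hDs hDc hDD using hD
  let P : Set (X ⊕ V) → Set V := fun S => ⋃ p : Xp S × Xp S, {v | ((p.1 : X), (p.2 : X)) ∈ O v}
  have hP : ∀ S, #(P S) ≤ max #S ℵ₀ := by
    intro S
    refine union_card _ (le_max_right _ _) ?_ fun p => ?_
    · rw [Cardinal.mk_prod, Cardinal.lift_id]
      calc #(Xp S) * #(Xp S) ≤ max #S ℵ₀ * max #S ℵ₀ :=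
            mul_le_mul' ((Xp_card S).trans (le_max_left _ _)) ((Xp_card S).trans (le_max_left _ _))
        _ = max #S ℵ₀ := Cardinal.mul_eq_self (le_max_right _ _)
    · exact (Cardinal.mk_le_aleph0_iff.2 (countable_O h p.1 p.2).to_subtype).trans
        (le_max_right _ _)
  let Q : Set (X ⊕ V) → Set X := fun S => ⋃ v : Vp S, (Prod.fst '' D v S ∪ Prod.snd '' D v S)
  have hQ : ∀ S, #(Q S) ≤ max #S ℵ₀ := by
    intro S
    refine union_card _ (le_max_right _ _) ((Vp_card S).trans (le_max_left _ _)) fun v => ?_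
    refine (Cardinal.mk_union_le _ _).trans ?_
    exact Cardinal.add_le_of_le (le_max_right _ _) (Cardinal.mk_image_le.trans (hDc _ _))
      (Cardinal.mk_image_le.trans (hDc _ _))
  let nxt : Set (X ⊕ V) → Set (X ⊕ V) := fun S =>
    S ∪ (Sum.inr '' P S ∪ (Sum.inl '' C S ∪ Sum.inl '' Q S))
  let T : ℕ → Set (X ⊕ V) := fun n => Nat.rec S (fun _ S => nxt S) n
  have hT : ∀ n, T (n + 1) = nxt (T n) := fun n => rfl
  have hTmono : Monotone T := monotone_nat_of_le_succ fun n => by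
    rw [hT]
    exact subset_union_left
  have hTcard : ∀ n, #↥(T n) ≤ κ := by
    intro n
    induction n with
    | zero => exact le_max_left _ _
    | succ n ih =>
      have ih' : max #↥(T n) ℵ₀ ≤ κ := max_le ih hκ0
      rw [hT]
      refine (Cardinal.mk_union_le _ _).trans (Cardinal.add_le_of_le hκ0 ih ?_)
      refine (Cardinal.mk_union_le _ _).trans (Cardinal.add_le_of_le hκ0
        (Cardinal.mk_image_le.trans ((hP _).trans ih')) ?_)
      exact (Cardinal.mk_union_le _ _).trans (Cardinal.add_le_of_le hκ0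
        (Cardinal.mk_image_le.trans ((hCc _).trans ih'))
        (Cardinal.mk_image_le.trans ((hQ _).trans ih')))
  refine ⟨⋃ n, T n, subset_iUnion T 0, ⟨?_, ?_, ?_⟩, iUnion_nat_card_le T hκ0 hTcard⟩
  · have h5 : Dn Set.univ (⋃ n, Xp (T (n + 1))) (⋃ n, g '' Vp (T n)) := by
      apply Dn_iUnion
      · intro i j
        refine ⟨max i j, Xp_mono (hTmono (Nat.succ_le_succ (le_max_left i j))),
          Xp_mono (hTmono (Nat.succ_le_succ (le_max_right i j))),
          image_mono (Vp_mono (hTmono (le_max_left i j))),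
          image_mono (Vp_mono (hTmono (le_max_right i j)))⟩
      · intro n
        refine Dn_mono (hCD (T n)) ?_ subset_rfl
        intro c hc
        show Sum.inl c ∈ T (n + 1)
        rw [hT]
        exact Or.inr (Or.inr (Or.inl ⟨c, hc, rfl⟩))
    refine Dn_mono h5 (iUnion_subset fun n => Xp_mono (subset_iUnion T (n + 1))) ?_
    rintro f ⟨v, hv, rfl⟩
    obtain ⟨n, hn⟩ := mem_iUnion.1 (show Sum.inr v ∈ ⋃ n, T n from hv)
    exact mem_iUnion.2 ⟨n, v, hn, rfl⟩
  · intro p hp q hq v hv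
    obtain ⟨i, hi⟩ := mem_iUnion.1 (show Sum.inl p ∈ ⋃ n, T n from hp)
    obtain ⟨j, hj⟩ := mem_iUnion.1 (show Sum.inl q ∈ ⋃ n, T n from hq)
    have h1 : Sum.inl p ∈ T (max i j) := hTmono (le_max_left i j) hi
    have h2 : Sum.inl q ∈ T (max i j) := hTmono (le_max_right i j) hj
    refine mem_iUnion.2 ⟨max i j + 1, ?_⟩
    rw [hT]
    exact Or.inr (Or.inl ⟨v, mem_iUnion.2 ⟨(⟨p, h1⟩, ⟨q, h2⟩), hv⟩, rfl⟩)
  · intro v hv
    obtain ⟨k, hk⟩ := mem_iUnion.1 (show Sum.inr v ∈ ⋃ n, T n from hv)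
    have h5 : Dn ((O v)ᶜ) (⋃ n, (O v)ᶜ ∩ (Xp (T (k + n + 1)) ×ˢ Xp (T (k + n + 1))))
        (⋃ n, sq g (Vp (T (k + n)))) := by
      apply Dn_iUnion
      · intro i j
        have hm : ∀ a b : ℕ, a ≤ b → T a ⊆ T b := fun a b hab => hTmono hab
        have h1 : T (k + i) ⊆ T (k + max i j) := hm _ _ (by omega)
        have h2 : T (k + j) ⊆ T (k + max i j) := hm _ _ (by omega)
        have h3 : T (k + i + 1) ⊆ T (k + max i j + 1) := hm (k + i + 1) (k + max i j + 1) (by omega)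
        have h4 : T (k + j + 1) ⊆ T (k + max i j + 1) := hm (k + j + 1) (k + max i j + 1) (by omega)
        exact ⟨max i j, inter_subset_inter_right _ (prod_mono (Xp_mono h3) (Xp_mono h3)),
          inter_subset_inter_right _ (prod_mono (Xp_mono h4) (Xp_mono h4)),
          sq_mono g (Vp_mono h1), sq_mono g (Vp_mono h2)⟩
      · intro n
        have hvn : Sum.inr v ∈ T (k + n) := hTmono (Nat.le_add_right k n) hk
        refine Dn_mono (hDD v (T (k + n))) ?_ subset_rfl
        intro d hd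
        refine ⟨hDs _ _ hd, ?_, ?_⟩
        · show Sum.inl d.1 ∈ T (k + n + 1)
          rw [hT]
          exact Or.inr (Or.inr (Or.inr ⟨d.1, mem_iUnion.2 ⟨⟨v, hvn⟩, Or.inl ⟨d, hd, rfl⟩⟩, rfl⟩))
        · show Sum.inl d.2 ∈ T (k + n + 1)
          rw [hT]
          exact Or.inr (Or.inr (Or.inr ⟨d.2, mem_iUnion.2 ⟨⟨v, hvn⟩, Or.inr ⟨d, hd, rfl⟩⟩, rfl⟩))
    refine Dn_mono h5 (iUnion_subset fun n => inter_subset_inter_right _
      (prod_mono (Xp_mono (subset_iUnion T (k + n + 1)))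
        (Xp_mono (subset_iUnion T (k + n + 1))))) ?_
    rintro f ⟨w, hw, hf⟩
    obtain ⟨n, hn⟩ := mem_iUnion.1 (show Sum.inr w ∈ ⋃ n, T n from hw)
    have h6 : T n ⊆ T (k + n) := hTmono (Nat.le_add_left n k)
    exact mem_iUnion.2 ⟨n, w, h6 hn, hf⟩

end Pool.Agent.Q149.GK
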