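import Pool.Agent.H180.GK.Stm

/-!
# Project GK, job GK-Union: unions of chains of models
-/

set_option autoImplicit false
set_option linter.all false

open Set Topology Cardinal Pool.Agent.Helper535 Pool.Agent.H180.GK

namespace Pool.Agent.Q149.GK

universe u

theorem Dn_mono {X : Type u} [TopologicalSpace X] {Z B B' : Set X} {M M' : Set C(X, ℝ)}
    (h : Dn Z B M) (hB : B ⊆ B') (hM : M' ⊆ M) : Dn Z B' M' := by
  intro x hx
  obtain ⟨x', h1, h2⟩ := h x hx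
  exact ⟨x', closure_mono hB h1, fun f hf => h2 f (hM hf)⟩

theorem Xp_mono {X V : Type u} {S S' : Set (X ⊕ V)} (h : S ⊆ S') : Xp S ⊆ Xp S' :=
  fun _ hx => h hx

theorem Vp_mono {X V : Type u} {S S' : Set (X ⊕ V)} (h : S ⊆ S') : Vp S ⊆ Vp S' :=
  fun _ hx => h hx

theorem sq_mono {X : Type u} [TopologicalSpace X] {V : Type u} (g : V → C(X, ℝ)) {N N' : Set V}
    (h : N ⊆ N') : sq g N ⊆ sq g N' := by
  rintro f ⟨v, hv, hf⟩
  exact ⟨v, h hv, hf⟩

/-- **JOB GK-Union** -/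
theorem union : S_Union.{u} := by
  intro X _ _ V O g 𝒮 hne hch h
  refine ⟨?_, ?_, ?_⟩
  · have hne' : Nonempty 𝒮 := hne.to_subtype
    have h1 : Dn Set.univ (⋃ S : 𝒮, Xp S.1) (⋃ S : 𝒮, g '' Vp S.1) := by
      apply Dn_iUnion
      · intro i j
        rcases hch.total i.2 j.2 with h | h
        · exact ⟨j, Xp_mono h, subset_rfl, image_mono (Vp_mono h), subset_rfl⟩
        · exact ⟨i, subset_rfl, Xp_mono h, subset_rfl, image_mono (Vp_mono h)⟩
      · intro i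
        exact (h i.1 i.2).dn
    refine Dn_mono h1 (iUnion_subset fun S => Xp_mono (subset_sUnion_of_mem S.2)) ?_
    rintro f ⟨v, ⟨S, hS, hv⟩, rfl⟩
    exact mem_iUnion.2 ⟨⟨S, hS⟩, v, hv, rfl⟩
  · rintro p ⟨S, hS, hp⟩ q ⟨S', hS', hq⟩ v hv
    rcases hch.total hS hS' with h' | h'
    · exact ⟨S', hS', (h S' hS').clo p (h' hp) q hq v hv⟩
    · exact ⟨S, hS, (h S hS).clo p hp q (h' hq) v hv⟩
  · rintro v ⟨S0, hS0, hv0⟩
    let ι := {S : Set (X ⊕ V) // S ∈ 𝒮 ∧ S0 ⊆ S}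
    have hι : Nonempty ι := ⟨⟨S0, hS0, subset_rfl⟩⟩
    have h1 : Dn ((O v)ᶜ) (⋃ S : ι, (O v)ᶜ ∩ (Xp S.1 ×ˢ Xp S.1)) (⋃ S : ι, sq g (Vp S.1)) := by
      apply Dn_iUnion
      · intro i j
        rcases hch.total i.2.1 j.2.1 with h | h
        · exact ⟨j, inter_subset_inter_right _ (prod_mono (Xp_mono h) (Xp_mono h)), subset_rfl,
            sq_mono g (Vp_mono h), subset_rfl⟩
        · exact ⟨i, subset_rfl, inter_subset_inter_right _ (prod_mono (Xp_mono h) (Xp_mono h)),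
            subset_rfl, sq_mono g (Vp_mono h)⟩
      · intro i
        exact (h i.1 i.2.1).dn2 v (i.2.2 hv0)
    refine Dn_mono h1 (iUnion_subset fun S => inter_subset_inter_right _
      (prod_mono (Xp_mono (subset_sUnion_of_mem S.2.1)) (Xp_mono (subset_sUnion_of_mem S.2.1)))) ?_
    rintro f ⟨w, ⟨S, hS, hw⟩, hf⟩
    rcases hch.total hS hS0 with h' | h'
    · exact mem_iUnion.2 ⟨⟨S0, hS0, subset_rfl⟩, w, h' hw, hf⟩
    · exact mem_iUnion.2 ⟨⟨S, hS, h'⟩, w, hw, hf⟩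

end Pool.Agent.Q149.GK
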